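import Pool.Agent.H.MP_6575fe_co.A

open Finset

namespace Pool.Agent.H.MP_6575fe_co

variable {F : Type} [Field F] [Fintype F] [DecidableEq F] {d : ℕ}

theorem one (p : ℕ) [CharP F p] {M : Finset F} (h0 : 0 ∈ M) (hA : ∀ u ∈ M, ∀ v ∈ M, u + v ∈ M)
    {j : ℕ} (hj : 2 * j ≤ #M) (j3 : 3 ≤ j) (x3 : j = 3 → #M ≠ 7) (jF : (j : F) ≠ 0) :
    ∃ B ⊆ M, Inv 1 B ∧ #B = j ∧ Rig 1 B := by
  have i1 : ∀ B : Finset F, Inv 1 B := fun B y hy z e => by rwa [show z = y by simpa using e]
  have hO : ∀ x : F, x ≠ 0 → #(O 1 x) = 1 := fun x _ => by simp [O, filter_eq']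
  have n : ∀ u ∈ M, ∀ v ∈ M, u - v ∈ M := fun u hu v hv => tn (fun w hw => hA w hw v hv) u hu
  obtain ⟨B, s, h2, h3, h4⟩ : ∃ B ⊆ M, #B + 2 = j ∧ ∑ z ∈ B, z ≠ 0 ∧ (0 ∈ B ∨ 2 * j + 2 ≤ #M) := by
    by_cases c : j = 3
    · obtain ⟨B, s, -, h2, h3, -⟩ := st (by simp) hO (i1 M) h0 (t := 1) (i := 0) (by simp) (by simp)
        (by omega)
      obtain ⟨e, he⟩ := pw p h0 hA
      have : #M ≠ 6 := fun h => by
        have hp := CharP.char_is_prime F p
        have a := (Nat.prime_dvd_prime_iff_eq Nat.prime_two hp).1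
          (Nat.prime_two.dvd_of_dvd_pow (n := e) (by omega))
        have b := (Nat.prime_dvd_prime_iff_eq Nat.prime_three hp).1
          (Nat.prime_three.dvd_of_dvd_pow (n := e) (by omega))
        omega
      have := x3 c
      exact ⟨B, s, by omega, by simpa using h3, .inr (by omega)⟩
    · obtain ⟨B, s, -, h2, h3, h4⟩ := st (by simp) hO (i1 M) h0 (t := j - 3) (i := 1) le_rfl
        (by omega) (by omega)
      exact ⟨B, s, by omega, by simpa using h3, .inl (h4 rfl)⟩
  set u := ∑ z ∈ B, z with hu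
  set Z := insert (-u / 2) (B ∪ B.image (-u - ·) ∪ {0, -u})
  have cZ : #Z + 3 ≤ #M := by
    have z : #Z ≤ #(B ∪ B.image (-u - ·) ∪ {0, -u}) + 1 := card_insert_le _ _
    have := card_union_le B (B.image (-u - ·))
    have := card_image_le (s := B) (f := (-u - ·))
    rcases h4 with h | h
    · have : B ∪ B.image (-u - ·) ∪ {0, -u} = B ∪ B.image (-u - ·) :=
        union_eq_left.2 (insert_subset (mem_union_left _ h) (singleton_subset_iff.2
          (mem_union_right _ (mem_image.2 ⟨0, h, sub_zero _⟩))))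
      rw [this] at z
      omega
    · have := card_union_le (B ∪ B.image (-u - ·)) {0, -u}
      have := card_le_two (a := 0) (b := -u)
      omega
  have mZ : ∀ y ∉ Z, y ∉ B ∧ -u - y ∉ B ∧ y ≠ 0 ∧ -u - y ≠ 0 ∧ y ≠ -u - y := fun y hy => by
    simp only [Z, mem_union, mem_image, mem_insert, mem_singleton, not_or, not_exists,
      not_and] at hy
    refine ⟨hy.2.1.1, fun h => hy.2.1.2 _ h (by ring), hy.2.2.1,
      fun h => hy.2.2.2 (sub_eq_zero.1 h).symm, fun h => hy.1 ?_⟩
    rw [eq_div_iff fun c => h3 (by linear_combination h - y * c)]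
    linear_combination h
  obtain ⟨y, hy, hy', e⟩ : ∃ y ∈ M, y ∉ Z ∧ y⁻¹ + (-u - y)⁻¹ + ∑ z ∈ B, z⁻¹ ≠ 0 := by
    by_contra! h
    obtain ⟨x, hx, hx'⟩ := exists_mem_notMem_of_card_lt_card (s := Z) (t := M) (by omega)
    obtain ⟨y, hy, hy'⟩ := exists_mem_notMem_of_card_lt_card (s := Z ∪ {x, -u - x}) (t := M) (by
      have := card_union_le Z {x, -u - x}
      have := card_le_two (a := x) (b := -u - x)
      omega)
    simp only [mem_union (s := Z), mem_insert, mem_singleton, not_or] at hy'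
    have e := add_right_cancel ((h x hx hx').trans (h y hy hy'.1).symm)
    obtain ⟨-, -, a, b, -⟩ := mZ x hx'
    obtain ⟨-, -, a', b', -⟩ := mZ y hy'.1
    field_simp at e
    have : u * ((y - x) * (y - (-u - x))) = 0 := by linear_combination e
    simp only [h3, mul_eq_zero, sub_eq_zero, hy'.2.1, hy'.2.2, or_self] at this
  obtain ⟨k1, k2, -, -, k4⟩ := mZ y hy'
  have k3 : y ∉ insert (-u - y) B := by simp only [mem_insert, k1, k4, or_self, not_false_iff]
  have c : #(insert y (insert (-u - y) B)) = j := by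
    rw [card_insert_of_notMem k3, card_insert_of_notMem k2, h2]
  refine ⟨insert y (insert (-u - y) B), insert_subset hy (insert_subset (n _ (zero_sub u ▸ n _ h0 _
    (sum_induction _ (· ∈ M) (fun a b h h' => hA a h b h') h0 s)) _ hy) s), i1 _, c,
    fun a b ha g => ?_⟩
  have s1 := sb' ha g id
  simp only [id, sum_add_distrib, sum_const, nsmul_eq_mul] at s1
  rw [← mul_sum, c, sum_insert k3, sum_insert k2, ← hu] at s1
  obtain rfl : b = 0 := (mul_eq_zero.1 (by linear_combination s1)).resolve_left jF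
  have s2 := sb' ha g (·⁻¹)
  simp only [add_zero, mul_inv] at s2
  rw [← mul_sum, sum_insert k3, sum_insert k2, ← add_assoc] at s2
  exact ⟨rfl, by simpa using (mul_left_eq_self₀.1 s2).resolve_right e⟩

theorem core (p : ℕ) [CharP F p] (dF : (d : F) ≠ 0) (hO : ∀ x : F, x ≠ 0 → #(O d x) = d)
    {M : Finset F} (hM : Inv d M) (h0 : 0 ∈ M) (hA : ∀ u ∈ M, ∀ v ∈ M, u + v ∈ M) {j t i : ℕ}
    (hi : i ≤ 1) (ht : j = t * d + i) (hj : 2 * j ≤ #M) (j2 : 2 ≤ j) (x1 : d = 1 → j ≠ 2)
    (x2 : ∀ e, j = d + 1 → d + 1 ≠ p ^ e) (x3 : d = 1 → j = 3 → #M ≠ 7) :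
    ∃ B ⊆ M, Inv d B ∧ #B = j ∧ Rig d B := by
  have d0 : d ≠ 0 := by rintro rfl; simp at dF
  by_cases c : d = 1 ∧ (j : F) ≠ 0
  · obtain ⟨rfl, c⟩ := c
    exact one p h0 hA hj (by have := x1 rfl; omega) (x3 rfl) c
  have ev : d = 1 → (j : F) = 0 := fun h => not_not.1 fun h' => c ⟨h, h'⟩
  obtain ⟨B, s, h1, h2, h3, -⟩ := st dF hO hM h0 hi (t := t) (by rintro rfl; omega) (by omega)
  rw [← ht] at h2
  by_cases nt : ∀ u, (∀ x ∈ B, x + u ∈ B) → u = 0
  · exact ⟨B, s, h1, h2, fin hO d0 h1 h3 (h2 ▸ ev) nt⟩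
  push Not at nt
  obtain ⟨u, hu, u0⟩ := nt
  obtain ⟨k2, k3, m, e, k1, k4, k5⟩ := kl p d0 hO h1 h3 u0 hu
  have m2 : 2 ≤ m := by
    have : m ≠ 1 := fun h => x2 e (by rw [← h2, k4, h, one_mul]) k5
    have : m ≠ 0 := fun h => h3 (by simp [k1, h])
    omega
  have m3 := Nat.mul_le_mul_right (d + 1) m2
  have cO : ∀ c : F, #{z | z ^ d = c} ≤ d := fun c => by
    rcases eq_empty_or_nonempty ({z | z ^ d = c} : Finset F) with h | ⟨z, hz⟩
    · simp [h]
    rw [← (mem_filter.1 hz).2]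
    by_cases z0 : z = 0
    · simp [z0, d0, filter_eq', Nat.one_le_iff_ne_zero]
    · exact (hO z z0).le
  obtain ⟨x, hx, hx'⟩ := exists_mem_notMem_of_card_lt_card (s := insert 0 (O d u)) (t := B)
    ((card_insert_le _ _).trans_lt (by rw [hO u u0]; omega))
  simp only [O, mem_insert, mem_filter, mem_univ, true_and, not_or] at hx'
  by_cases d1 : d = 1
  · subst d1
    obtain rfl : p = 2 := (Nat.prime_two.pow_eq_iff.1 k5.symm).1
    have hm : ∀ m : ℕ, ∀ u : F, m * ((1 : ℕ) * u ^ 1) ≠ 0 → m * ((1 : ℕ) * u ^ 1) = u := by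
      intro m u
      rw [CharTwo.natCast_eq_ite m]
      split_ifs <;> simp
    rw [hm m u (k1 ▸ h3)] at k1
    have two := card_le_two (a := x) (b := x + u)
    obtain ⟨y, hy, hy'⟩ := exists_mem_notMem_of_card_lt_card (s := {x, x + u}) (t := B) (by omega)
    obtain ⟨w, hw, hw'⟩ := exists_mem_notMem_of_card_lt_card
      (s := insert 0 B ∪ ((B.erase x).erase (x + u)).image (· + (y + u + x))) (t := M) (by
        refine (card_union_le _ _).trans_lt ?_
        have := card_insert_le 0 B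
        have := card_image_le (s := (B.erase x).erase (x + u)) (f := (· + (y + u + x)))
        rw [card_erase_of_mem (by simp [u0, hu x hx]), card_erase_of_mem hx] at this
        omega)
    simp only [mem_union, mem_insert, mem_singleton, not_or, mem_image, mem_erase, not_exists,
      not_and, and_imp] at hw' hy'
    obtain ⟨C, c1, c2, c3, c4, c5⟩ := sw hO hM h1 s hx hx'.1 hw hw'.1.2 hw'.1.1
    replace c4 : ∑ z ∈ C, z ^ 1 = u + x + w := by
      rw [c4, k1]
      simp [CharTwo.sub_eq_add]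
    have p : ∑ z ∈ C, z ^ 1 ≠ 0 := fun h => hw'.1.2 (by
      rw [c4, CharTwo.add_eq_zero, add_comm] at h
      exact h ▸ hu x hx)
    refine ⟨C, c1, c2, c3.trans h2, fin hO d0 c2 p (c3 ▸ h2 ▸ ev) fun v hv => by_contra fun v0 => ?_⟩
    obtain ⟨-, -, m', -, q, -⟩ := kl 2 d0 hO c2 p v0 hv
    rw [hm m' v (q ▸ p), c4] at q
    subst q
    simp only [pow_one] at c5
    rcases (c5 _).1 (hv y ((c5 y).2 (.inl ⟨hy, hy'.1⟩))) with h | h
    · refine hw'.2 _ (fun e => hw'.1.2 ?_) h.2 h.1 ?_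
      · rwa [show w = y by linear_combination e - y * CharTwo.two_eq_zero (R := F)]
      · linear_combination (y + u + x) * CharTwo.two_eq_zero (R := F)
    · exact hy'.2 (by linear_combination h - (u + x) * CharTwo.two_eq_zero (R := F))
  have l : j + 3 * d + 1 < #M := by
    rcases m2.eq_or_lt with rfl | m2
    · have : 3 ≤ t := by
        by_contra! c
        have := Nat.mul_le_mul_right d (Nat.le_of_lt_succ c)
        omega
      have := Nat.mul_le_mul_right d this
      obtain rfl : d = 2 := by omega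
      obtain rfl : p = 3 := (Nat.prime_three.pow_eq_iff.1 k5.symm).1
      obtain ⟨e, he⟩ := pw 3 h0 hA
      rcases le_or_gt e 2 with c | c
      · have := Nat.pow_le_pow_right (n := 3) (by omega) c
        omega
      · have := Nat.pow_le_pow_right (n := 3) (by omega) c
        omega
    · have := Nat.mul_le_mul_right (d + 1) m2
      omega
  obtain ⟨w, hw, hw'⟩ := exists_mem_notMem_of_card_lt_card
    (s := B ∪ insert 0 (O d u) ∪ (univ.filter (· ^ d = x ^ d - m * u ^ d) ∪
      univ.filter (· ^ d = (m + 1) * x ^ d - m * u ^ d))) (t := M) (by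
      refine (card_union_le _ _).trans_lt ((Nat.add_le_add_left (card_union_le _ _) _).trans_lt ?_)
      have := card_union_le B (insert 0 (O d u))
      have := card_insert_le 0 (O d u)
      have := cO (x ^ d - m * u ^ d)
      have := cO ((m + 1) * x ^ d - m * u ^ d)
      have := hO u u0
      omega)
  simp only [O, mem_union, mem_insert, mem_filter, mem_univ, true_and, not_or] at hw'
  obtain ⟨C, c1, c2, c3, c4, c5⟩ := sw hO hM h1 s hx hx'.1 hw hw'.1.1 hw'.1.2.1
  have hp : ∑ z ∈ C, z ^ d ≠ 0 := fun h => hw'.2.1 (mul_left_cancel₀ dF (by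
    linear_combination h - c4 - k1))
  refine ⟨C, c1, c2, c3.trans h2, fin hO d0 c2 hp (absurd · d1) fun v hv => by_contra fun v0 => ?_⟩
  obtain ⟨-, -, m', -, q, q', -⟩ := kl p d0 hO c2 hp v0 hv
  obtain rfl : m = m' := Nat.eq_of_mul_eq_mul_right d.succ_pos (k4.symm.trans (c3.symm.trans q'))
  have xC : x ∉ C := fun h => ((c5 x).1 h).elim (fun h => h.2 rfl)
    fun h => hw'.1.1 (h1 x hx w h.symm)
  have a : ∀ y, y ^ d = u ^ d → (x + y + v) ^ d = w ^ d := fun y hy => by
    have y0 : y ≠ 0 := fun e => pow_ne_zero d u0 (by rw [← hy, e, zero_pow d0])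
    have b : ∀ y, y ≠ 0 → (x + y) ^ d = x ^ d → y ^ d = x ^ d := fun y y0 e => by
      have := (k2 _ _ e).resolve_left (by simpa using y0)
      rwa [add_sub_cancel_left, e] at this
    refine ((c5 _).1 (hv _ ((c5 _).2 (.inl ⟨k3 x hx y hy, fun e =>
      hx'.2 ((b y y0 e).symm.trans hy)⟩)))).resolve_left fun h => ?_
    have h' := tn (fun z hz => k3 z hz y hy) _ h.1
    rw [add_right_comm, add_sub_cancel_right] at h'
    by_cases e : (x + v) ^ d = x ^ d
    · rw [b v v0 e] at q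
      exact hw'.2.2 (mul_left_cancel₀ dF (by linear_combination q - c4 - k1))
    · exact xC (by simpa using tn hv _ ((c5 _).2 (.inl ⟨h', e⟩)))
  obtain ⟨y, hy, yu⟩ := exists_mem_ne (s := O d u) (by rw [hO u u0]; omega) u
  replace hy := (mem_filter.1 hy).2
  have e1 := (k2 _ _ ((a y hy).trans (a u rfl).symm)).resolve_left (by simpa using yu)
  rw [show x + y + v - (x + u + v) = y - u by ring, a y hy, (k2 _ _ hy).resolve_left yu, hy] at e1
  exact hw'.1.2.2 e1.symm

end Pool.Agent.H.MP_6575fe_co
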