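import Pool.Agent.H.MP_6575fe_co.B

open Finset

namespace Pool.Agent.H.MP_6575fe_co

variable {F : Type} [Field F] [Fintype F] [DecidableEq F] {d : ℕ}

theorem cls (p : ℕ) [CharP F p] (dF : (d : F) ≠ 0) (hO : ∀ x : F, x ≠ 0 → #(O d x) = d)
    (K : Subfield F) (mK : ∀ z : F, z ^ d = 1 → z ∈ K) {M : Finset F} (h0 : 0 ∈ M)
    (hA : ∀ u ∈ M, ∀ v ∈ M, u + v ∈ M) (hK : ∀ a ∈ K, ∀ v ∈ M, a * v ∈ M) {j t i : ℕ}
    (hi : i ≤ 1) (ht : j = t * d + i) (hj : 2 * j ≤ #M) (j0 : j ≠ 0) :
    (¬∃ B ⊆ M, Inv d B ∧ #B = j ∧ ∀ a ∈ K, ∀ b ∈ M, a ≠ 0 → (∀ x ∈ B, a * x + b ∈ B) →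
      b = 0 ∧ a ^ d = 1) ↔ (j = 1 ∧ d + 1 ≠ Nat.card K) ∨ (d = 1 ∧ j = 2) ∨
      (j = d + 1 ∧ ∃ e, d + 1 = p ^ e) ∨ (d = 1 ∧ j = 3 ∧ #M = 7) := by
  classical
  have d0 : d ≠ 0 := by rintro rfl; simp at dF
  have n : ∀ u ∈ M, ∀ v ∈ M, u - v ∈ M := fun u hu v hv => tn (fun w hw => hA w hw v hv) u hu
  have n0 : ∀ u : F, u ≠ 0 → #(insert 0 (O d u)) = d + 1 := fun u hu => by
    rw [card_insert_of_notMem (by simp [O, d0, (pow_ne_zero d hu).symm]), hO u hu]
  have sK : insert 0 (O d (1 : F)) ⊆ univ.filter (· ∈ K) :=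
    insert_subset (by simp) fun z hz => by simpa using mK z (by simpa [O] using hz)
  rw [Nat.card_eq_fintype_card, Fintype.card_subtype]
  constructor
  · contrapose!
    rintro ⟨x0, x1, x2, x3⟩
    by_cases c : j = 1
    · refine ⟨{0}, by simpa, by simp [Inv, d0], by simp [c], fun a ha b _ a0 g => ⟨by simpa using g, ?_⟩⟩
      simpa [O, a0] using (eq_of_subset_of_card_le sK (by rw [n0 1 one_ne_zero, x0 c])).ge
        (mem_filter.2 ⟨mem_univ a, ha⟩)
    obtain ⟨B, s, h1, h2, h3⟩ := core p dF hO (M := M) (fun y hy z e => by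
      rcases eq_or_ne y 0 with c | c
      · rwa [show z = y by simpa [c, d0] using e]
      · rw [← div_mul_cancel₀ z c]
        exact hK _ (mK _ (by rw [div_pow, e, div_self (pow_ne_zero _ c)])) y hy)
      h0 hA hi ht hj (by omega) x1 (fun e h => x2 h e) x3
    exact ⟨B, s, h1, h2, fun a _ b _ => h3 a b⟩
  rintro h ⟨B, s, h1, h2, h3⟩
  have two : d = 1 → j ≠ 2 := fun e c => by
    obtain ⟨x, y, xy, rfl⟩ := card_eq_two.1 (h2.trans c)
    have := h3 (-1) (by simp) (x + y) (hA _ (s (by simp)) _ (s (by simp))) (by simp) (by simp)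
    rw [e, pow_one] at this
    exact xy (by linear_combination this.1 + y * this.2)
  rcases h with ⟨c, h⟩ | ⟨e, c⟩ | ⟨c, e, h⟩ | ⟨rfl, c, h⟩
  · obtain ⟨x, rfl⟩ := card_eq_one.1 (h2.trans c)
    have hx := s (mem_singleton_self x)
    refine h ((n0 1 one_ne_zero).symm.trans (congrArg card (sK.antisymm fun a ha => ?_)))
    replace ha := (mem_filter.1 ha).2
    by_cases a0 : a = 0
    · simp [a0]
    · simp [O, (h3 a ha (x - a * x) (n _ hx _ (hK a ha x hx)) a0 (by simp)).2]
  · exact two e c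
  · have d1 : d ≠ 1 := fun e => two e (by omega)
    obtain ⟨x, hx, x0⟩ := exists_mem_ne (s := B) (by omega) 0
    have s1 : O d x ⊆ B := fun z hz => h1 x hx z (mem_filter.1 hz).2
    have e1 : B = insert 0 (O d x) := eq_of_subset_of_card_le (fun y hy => by
      by_contra! c'
      simp only [O, mem_insert, mem_filter, mem_univ, true_and, not_or] at c'
      have := card_le_card (union_subset s1 fun z (hz : z ∈ O d y) => h1 y hy z (mem_filter.1 hz).2)
      rw [card_union_of_disjoint (disjoint_left.2 fun z hz h =>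
        c'.2 ((mem_filter.1 h).2.symm.trans (mem_filter.1 hz).2)), hO x x0, hO y c'.1] at this
      omega) (by rw [n0 x x0]; omega)
    have m : ∀ z, z ∈ B ↔ z ^ (d + 1) = x ^ d * z := fun z => by
      simp [e1, O, pow_succ, or_comm]
    have := Fact.mk (CharP.char_is_prime F p)
    refine x0 (h3 1 K.one_mem x (s hx) one_ne_zero fun z hz => (m _).2 ?_).1
    rw [one_mul, h, add_pow_char_pow, ← h, (m z).1 hz, (m x).1 hx, mul_add]
  obtain ⟨x, y, z, xy, xz, yz, rfl⟩ := card_eq_three.1 (h2.trans c)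
  obtain ⟨e, he⟩ := pw p h0 hA
  obtain rfl : p = 7 := ((by norm_num : Nat.Prime 7).pow_eq_iff.1 (he.symm.trans h)).1
  have s7 : (7 : F) = 0 := CharP.cast_eq_zero F 7
  have hx := s (mem_insert_self x _)
  have hy : y ∈ M := s (by simp)
  have hz : z ∈ M := s (by simp)
  have hw := n y hy x hx
  have eM : (range 7).image (fun i : ℕ => (i : F) * (y - x)) = M := eq_of_subset_of_card_le
    (image_subset_iff.2 fun i _ => hK _ (natCast_mem K i) _ hw) (by
      rw [card_image_of_injOn fun i hi j hj e => CharP.natCast_injOn_Iio F 7 (by simpa using hi)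
        (by simpa using hj) (mul_right_cancel₀ (sub_ne_zero.2 xy.symm) e), h, card_range])
  obtain ⟨i, hi, e⟩ := mem_image.1 (eM.ge (n z hz x hx))
  have k : ∀ a b c : ℤ, (a : F) ≠ 0 → (a : F) ≠ 1 →
      ¬∀ u ∈ ({x, y, z} : Finset F), a * u + (b * x + c * y) ∈ ({x, y, z} : Finset F) :=
    fun a b c a0 a1 g => a1 (by simpa using (h3 a (intCast_mem K a) _
      (hA _ (hK _ (intCast_mem K b) _ hx) _ (hK _ (intCast_mem K c) _ hy)) a0 g).2)
  have o : (1 : F) ≠ 0 := one_ne_zero
  obtain rfl : z = x + i * (y - x) := by linear_combination -e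
  rw [mem_range] at hi
  simp only [mem_insert, mem_singleton, forall_eq_or_imp, forall_eq] at k
  interval_cases i
  · simp at xz
  · simp at yz
  · exact k (-1) 0 2 (by simp) (fun c => o (by push_cast at c; linear_combination s7 + 3 * c))
      ⟨.inr (.inr (by push_cast; ring)), .inr (.inl (by push_cast; ring)), .inl (by push_cast; ring)⟩
  · exact k 2 (-2) 1 (fun c => o (by push_cast at c; linear_combination s7 - 3 * c))
      (fun c => o (by push_cast at c; linear_combination c)) ⟨.inr (.inl (by push_cast; ring)),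
      .inr (.inr (by push_cast; ring)), .inl (by push_cast; linear_combination (y - x) * s7)⟩
  · exact k (-1) 1 1 (by simp) (fun c => o (by push_cast at c; linear_combination s7 + 3 * c))
      ⟨.inr (.inl (by push_cast; ring)), .inl (by push_cast; ring),
      .inr (.inr (by push_cast; linear_combination (x - y) * s7))⟩
  · exact k 4 (-4) 1 (fun c => o (by push_cast at c; linear_combination 2 * c - s7))
      (fun c => o (by push_cast at c; linear_combination s7 - 2 * c)) ⟨.inr (.inl (by push_cast; ring)),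
      .inr (.inr (by push_cast; ring)), .inl (by push_cast; linear_combination 3 * (y - x) * s7)⟩
  · exact k (-1) 2 0 (by simp) (fun c => o (by push_cast at c; linear_combination s7 + 3 * c))
      ⟨.inl (by push_cast; ring), .inr (.inr (by push_cast; linear_combination (x - y) * s7)),
      .inr (.inl (by push_cast; linear_combination (x - y) * s7))⟩

end Pool.Agent.H.MP_6575fe_co
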